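import Mathlib

set_option autoImplicit false

namespace Pool.Agent.Results.MP_771c73_an.NoBoundedExtension

open Filter Topology

/-- The countable index set: finitely supported integer sequences with values in `{-1, 0, 1}`. -/
abbrev D := {d : ℕ →₀ ℤ // ∀ n, |d n| ≤ 1}

/-- The separable Banach space `ℓ¹(D)` over the reals. -/
abbrev E := lp (fun _ : D => ℝ) 1

lemma hasSum_norm (x : E) : HasSum (fun d => |x d|) ‖x‖ := by
  have := lp.hasSum_norm (p := 1) (by simp) x
  simpa using this

lemma summable_mul (c : D → ℝ) (hc : ∀ d, |c d| ≤ 1) (x : E) : Summable (fun d => c d * x d) := by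
  apply Summable.of_norm_bounded (hasSum_norm x).summable
  intro d
  rw [Real.norm_eq_abs, abs_mul]
  exact mul_le_of_le_one_left (abs_nonneg _) (hc d)

/-- The functional on `ℓ¹(D)` with a given coefficient sequence bounded by one. -/
noncomputable def L (c : D → ℝ) (hc : ∀ d, |c d| ≤ 1) : E →L[ℝ] ℝ :=
  LinearMap.mkContinuous
    { toFun := fun x => ∑' d, c d * x d
      map_add' := by
        intro x y
        rw [← (summable_mul c hc x).tsum_add (summable_mul c hc y)]
        apply tsum_congr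
        intro d
        rw [lp.coeFn_add, Pi.add_apply, mul_add]
      map_smul' := by
        intro r x
        rw [RingHom.id_apply, smul_eq_mul, ← tsum_mul_left]
        apply tsum_congr
        intro d
        rw [lp.coeFn_smul, Pi.smul_apply, smul_eq_mul]
        ring } 1 (by
    intro x
    rw [one_mul]
    apply tsum_of_norm_bounded (hasSum_norm x)
    intro d
    rw [Real.norm_eq_abs, abs_mul]
    exact mul_le_of_le_one_left (abs_nonneg _) (hc d))

lemma L_apply (c : D → ℝ) (hc : ∀ d, |c d| ≤ 1) (x : E) : L c hc x = ∑' d, c d * x d := rfl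

lemma L_norm (c : D → ℝ) (hc : ∀ d, |c d| ≤ 1) : ‖L c hc‖ ≤ 1 :=
  LinearMap.mkContinuous_norm_le _ zero_le_one _

lemma L_le (c : D → ℝ) (hc : ∀ d, |c d| ≤ 1) (x : E) : |L c hc x| ≤ ‖x‖ := by
  have := (L c hc).le_of_opNorm_le (L_norm c hc) x
  rwa [one_mul, Real.norm_eq_abs] at this

open scoped Classical in
/-- The unit vectors. -/
noncomputable def e (d : D) : E := lp.single 1 d (1 : ℝ)

lemma L_e (c : D → ℝ) (hc : ∀ d, |c d| ≤ 1) (d : D) : L c hc (e d) = c d := by
  classical
  rw [L_apply, tsum_eq_single d]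
  · rw [e, lp.single_apply_self, mul_one]
  · intro d' hd'
    rw [e, lp.single_apply_ne _ _ _ hd', mul_zero]

lemma norm_e (d : D) : ‖e d‖ = 1 := by
  classical
  rw [e, lp.norm_single (by norm_num), norm_one]

/-- The functionals defining the subspace `G`. -/
noncomputable def q (n : ℕ) : E →L[ℝ] ℝ := L (fun d => ((d.1 n : ℤ) : ℝ)) (fun d => by
  have := d.2 n
  exact_mod_cast this)

/-- The closed subspace. -/
noncomputable def G : Submodule ℝ E where
  carrier := {x | ∀ n, q n x = 0}
  add_mem' := by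
    intro a b ha hb n
    rw [map_add, ha n, hb n, add_zero]
  zero_mem' := fun n => map_zero _
  smul_mem' := by
    intro c x hx n
    rw [map_smul, hx n, smul_zero]

lemma mem_G (x : E) : x ∈ G ↔ ∀ n, q n x = 0 := Iff.rfl

lemma G_closed : IsClosed (G : Set E) := by
  have : (G : Set E) = ⋂ n, {x | q n x = 0} := by
    ext x
    simp only [Set.mem_iInter]
    exact Iff.rfl
  rw [this]
  exact isClosed_iInter (fun n => isClosed_eq (q n).continuous continuous_const)

/-- Finitely supported sign patterns on `D`. -/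
abbrev Sg := {s : D →₀ ℤ // ∀ d, |s d| ≤ 1}

instance : Nonempty Sg := ⟨⟨0, fun d => by simp⟩⟩

/-- The functional of a sign pattern. -/
noncomputable def LS (s : Sg) : E →L[ℝ] ℝ := L (fun d => ((s.1 d : ℤ) : ℝ)) (fun d => by
  have := s.2 d
  exact_mod_cast this)

lemma exists_enum : ∃ u : ℕ → Sg, Function.Surjective u := exists_surjective_nat Sg

instance separable_E : TopologicalSpace.SeparableSpace E := by
  classical
  have h1 : TopologicalSpace.IsSeparable
      (closure (Submodule.span ℝ (Set.range e) : Set E)) :=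
    ((Set.countable_range e).isSeparable.span (R := ℝ)).closure
  have h2 : closure (Submodule.span ℝ (Set.range e) : Set E) = Set.univ := by
    rw [Set.eq_univ_iff_forall]
    intro x
    have h3 := lp.hasSum_single (p := 1) (by norm_num) x
    apply mem_closure_of_tendsto h3
    apply Eventually.of_forall
    intro s
    apply Submodule.sum_mem
    intro d _
    have : lp.single 1 d (x d) = (x d) • e d := by
      rw [e, ← lp.single_smul, smul_eq_mul, mul_one]
    rw [this]
    exact Submodule.smul_mem _ _ (Submodule.subset_span ⟨d, rfl⟩)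
  rw [h2] at h1
  exact TopologicalSpace.isSeparable_univ_iff.mp h1

/-- A sign. -/
noncomputable def sg (x : ℝ) : ℤ := if 0 ≤ x then 1 else -1

lemma abs_sg (x : ℝ) : |sg x| ≤ 1 := by
  unfold sg
  split_ifs <;> simp

lemma sg_mul (x : ℝ) : ((sg x : ℤ) : ℝ) * x = |x| := by
  unfold sg
  split_ifs with h
  · rw [abs_of_nonneg h]
    simp
  · rw [abs_of_neg (not_le.mp h)]
    simp

section main

variable (u : ℕ → Sg) (hu : Function.Surjective u) (f : ℕ → E →L[ℝ] ℝ)
  (hf : ∀ n, ∀ x ∈ G, f n x = LS (u n) x) (C : ℝ) (hC0 : 0 < C) (hC : ∀ n, ‖f n‖ ≤ C)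

include hu hf hC

lemma step1 (g y : E) (hg : g ∈ G) (hy : ∀ n, f n y = 0) : ‖g‖ ≤ C * ‖g + y‖ := by
  classical
  apply hasSum_le_of_sum_le (hasSum_norm g)
  intro s
  let σ : Sg := ⟨Finsupp.indicator s (fun d _ => sg (g d)), by
    intro d
    rw [Finsupp.indicator_apply]
    split_ifs
    · exact abs_sg _
    · simp⟩
  obtain ⟨n, hn⟩ := hu σ
  have h1 : ∑ d ∈ s, |g d| = LS σ g := by
    rw [LS, L_apply, tsum_eq_sum (s := s)]
    · apply Finset.sum_congr rfl
      intro d hd
      rw [← sg_mul]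
      congr 2
      show sg (g d) = Finsupp.indicator s (fun d _ => sg (g d)) d
      rw [Finsupp.indicator_apply, dif_pos hd]
    · intro d hd
      have : σ.1 d = 0 := by
        show Finsupp.indicator s (fun d _ => sg (g d)) d = 0
        rw [Finsupp.indicator_apply, dif_neg hd]
      rw [this]
      simp
  rw [h1, ← hn, ← hf n g hg]
  have h2 : f n g = f n (g + y) := by rw [map_add, hy n, add_zero]
  rw [h2]
  calc f n (g + y) ≤ ‖f n (g + y)‖ := le_abs_self _
    _ ≤ C * ‖g + y‖ := (f n).le_of_opNorm_le (hC n) _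

include hC0

lemma step2 (hdense : Dense {z : E | ∃ g ∈ G, ∃ y, (∀ n, f n y = 0) ∧ g + y = z}) (z : E) :
    ∃ g ∈ G, ∃ y, (∀ n, f n y = 0) ∧ g + y = z := by
  obtain ⟨v, hv, hvz⟩ := mem_closure_iff_seq_limit.mp (hdense z)
  choose g hg y hy hgy using hv
  have hcv := hvz.cauchySeq
  have hcg : CauchySeq g := by
    rw [Metric.cauchySeq_iff] at hcv ⊢
    intro ε hε
    obtain ⟨N, hN⟩ := hcv (ε / C) (by positivity)
    refine ⟨N, fun m hm n hn => ?_⟩
    have h1 := step1 u hu f hf C hC (g m - g n) (y m - y n) (G.sub_mem (hg m) (hg n)) (by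
      intro k
      rw [map_sub, hy, hy, sub_zero])
    have h2 : g m - g n + (y m - y n) = v m - v n := by
      rw [← hgy m, ← hgy n]
      abel
    rw [h2] at h1
    have h3 := hN m hm n hn
    rw [dist_eq_norm] at h3 ⊢
    rw [lt_div_iff₀ hC0] at h3
    linarith [mul_comm C ‖v m - v n‖]
  obtain ⟨g0, hg0⟩ := cauchySeq_tendsto_of_complete hcg
  refine ⟨g0, G_closed.mem_of_tendsto hg0 (Eventually.of_forall hg), z - g0, ?_, by abel⟩
  intro n
  have h1 : Tendsto y atTop (𝓝 (z - g0)) := by
    have : y = fun k => v k - g k := by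
      funext k
      rw [← hgy k]
      abel
    rw [this]
    exact hvz.sub hg0
  have h2 : Tendsto (fun k => f n (y k)) atTop (𝓝 (f n (z - g0))) :=
    ((f n).continuous.tendsto _).comp h1
  have h3 : (fun k => f n (y k)) = fun _ => 0 := by
    funext k
    exact hy k n
  rw [h3] at h2
  exact tendsto_nhds_unique h2 tendsto_const_nhds

/-- The index of the `n`-th unit sequence. -/
noncomputable def del (n : ℕ) : D := ⟨Finsupp.single n 1, by
  intro m
  rw [Finsupp.single_apply]
  split_ifs <;> simp⟩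

omit hu hf hC hC0 in
lemma q_del (m n : ℕ) : q m (e (del n)) = if n = m then 1 else 0 := by
  rw [q, L_e]
  show (((Finsupp.single n (1 : ℤ)) m : ℤ) : ℝ) = _
  rw [Finsupp.single_apply]
  split_ifs <;> simp

lemma final (hdense : Dense {z : E | ∃ g ∈ G, ∃ y, (∀ n, f n y = 0) ∧ g + y = z}) : False := by
  classical
  choose P hP Q hQ hPQ using step2 u hu f hf C hC0 hC hdense
  have hPn : ∀ z, ‖P z‖ ≤ C * ‖z‖ := by
    intro z
    have := step1 u hu f hf C hC (P z) (Q z) (hP z) (hQ z)
    rwa [hPQ] at this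
  have hQn : ∀ z, ‖Q z‖ ≤ (1 + C) * ‖z‖ := by
    intro z
    have h1 : Q z = z - P z := by
      rw [eq_sub_iff_add_eq, add_comm]
      exact hPQ z
    rw [h1]
    calc ‖z - P z‖ ≤ ‖z‖ + ‖P z‖ := norm_sub_le _ _
      _ ≤ (1 + C) * ‖z‖ := by linarith [hPn z]
  set x : ℕ → E := fun n => Q (e (del n)) with hx
  have hxP : ∀ n, x n = e (del n) - P (e (del n)) := by
    intro n
    rw [hx, eq_sub_iff_add_eq, add_comm]
    exact hPQ _
  -- signed sums are bounded
  have hsum : ∀ (A : Finset ℕ) (ε : ℕ → ℤ), (∀ n, |ε n| ≤ 1) →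
      ‖∑ n ∈ A, ((ε n : ℤ) : ℝ) • x n‖ ≤ 1 + C := by
    intro A ε hε
    let d : D := ⟨Finsupp.indicator A (fun n _ => ε n), by
      intro m
      rw [Finsupp.indicator_apply]
      split_ifs
      · exact hε _
      · simp⟩
    have hdm : ∀ m, d.1 m = if m ∈ A then ε m else 0 := by
      intro m
      show Finsupp.indicator A (fun n _ => ε n) m = _
      rw [Finsupp.indicator_apply]
      split_ifs <;> rfl
    set w : E := ∑ n ∈ A, ((ε n : ℤ) : ℝ) • x n - Q (e d) with hw
    have hwF : ∀ n, f n (-w) = 0 := by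
      intro n
      rw [map_neg, neg_eq_zero, hw, map_sub, hQ, sub_zero, map_sum]
      apply Finset.sum_eq_zero
      intro k _
      rw [map_smul, hx]
      simp only [hQ, smul_zero]
    have hrel : ∑ n ∈ A, ((ε n : ℤ) : ℝ) • e (del n) - e d ∈ G := by
      intro m
      rw [map_sub, map_sum]
      have : ∀ n ∈ A, q m (((ε n : ℤ) : ℝ) • e (del n)) = if n = m then ((ε m : ℤ) : ℝ) else 0 := by
        intro n _
        rw [map_smul, q_del]
        split_ifs with h
        · rw [h]; simp
        · simp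
      rw [Finset.sum_congr rfl this, Finset.sum_ite_eq', q, L_e]
      show (if m ∈ A then ((ε m : ℤ) : ℝ) else 0) - ((d.1 m : ℤ) : ℝ) = 0
      rw [hdm]
      split_ifs <;> simp
    have hwG : w ∈ G := by
      have h1 : w = (∑ n ∈ A, ((ε n : ℤ) : ℝ) • e (del n) - e d) -
          (∑ n ∈ A, ((ε n : ℤ) : ℝ) • P (e (del n)) - P (e d)) := by
        have h2 : Q (e d) = e d - P (e d) := by
          rw [eq_sub_iff_add_eq, add_comm]
          exact hPQ _
        rw [hw, h2]
        have h3 : ∑ n ∈ A, ((ε n : ℤ) : ℝ) • x n = ∑ n ∈ A, ((ε n : ℤ) : ℝ) • e (del n) -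
            ∑ n ∈ A, ((ε n : ℤ) : ℝ) • P (e (del n)) := by
          rw [← Finset.sum_sub_distrib]
          apply Finset.sum_congr rfl
          intro n _
          rw [hxP, smul_sub]
        rw [h3]
        abel
      rw [h1]
      apply G.sub_mem hrel
      exact G.sub_mem (G.sum_mem (fun n _ => G.smul_mem _ (hP _))) (hP _)
    have hw0 : ‖w‖ ≤ C * ‖w + -w‖ := step1 u hu f hf C hC w (-w) hwG hwF
    rw [add_neg_cancel, norm_zero, mul_zero] at hw0
    have hw1 : w = 0 := norm_le_zero_iff.mp hw0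
    rw [hw, sub_eq_zero] at hw1
    rw [hw1]
    calc ‖Q (e d)‖ ≤ (1 + C) * ‖e d‖ := hQn _
      _ = 1 + C := by rw [norm_e, mul_one]
  -- each coordinate tends to zero
  have hcoord : ∀ i : D, Tendsto (fun n => |x n i|) atTop (𝓝 0) := by
    intro i
    apply Summable.tendsto_atTop_zero
    apply summable_of_sum_le (c := 1 + C) (fun n => abs_nonneg _)
    intro A
    have h1 := hsum A (fun n => sg (x n i)) (fun n => abs_sg _)
    have h2 := lp.norm_apply_le_norm (p := 1) (by norm_num)
      (∑ n ∈ A, ((sg (x n i) : ℤ) : ℝ) • x n) i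
    have h3 : (∑ n ∈ A, ((sg (x n i) : ℤ) : ℝ) • x n : E) i = ∑ n ∈ A, |x n i| := by
      rw [lp.coeFn_sum, Finset.sum_apply]
      apply Finset.sum_congr rfl
      intro n _
      rw [lp.coeFn_smul, Pi.smul_apply, smul_eq_mul, sg_mul]
    rw [h3, Real.norm_eq_abs] at h2
    exact (le_abs_self _).trans (h2.trans h1)
  -- the vectors have norm at least one
  have hnorm : ∀ n, 1 ≤ ‖x n‖ := by
    intro n
    have h1 : q n (x n) = 1 := by
      rw [hxP, map_sub, q_del, if_pos rfl, hP _ n, sub_zero]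
    have h2 := L_le _ (fun d => by
      have := d.2 n
      exact_mod_cast this : ∀ d : D, |((d.1 n : ℤ) : ℝ)| ≤ 1) (x n)
    have h3 : |q n (x n)| ≤ ‖x n‖ := h2
    rw [h1] at h3
    simpa using h3
  -- gliding hump
  have hump : ∀ k : ℕ, ∃ A : Finset ℕ, (k : ℝ) * (3 / 8) ≤ ‖∑ n ∈ A, x n‖ := by
    intro k
    induction k with
    | zero => exact ⟨∅, by simp⟩
    | succ k ih =>
      obtain ⟨A, hA⟩ := ih
      set y : E := ∑ n ∈ A, x n with hy
      obtain ⟨s, hs⟩ : ∃ s : Finset D, ‖y‖ - 1 / 8 < ∑ d ∈ s, |y d| := by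
        have h1 := (hasSum_norm y).eventually_const_lt (show ‖y‖ - 1 / 8 < ‖y‖ by linarith)
        exact h1.exists
      have hlim : Tendsto (fun n => ∑ d ∈ s, |x n d|) atTop (𝓝 0) := by
        have := tendsto_finsetSum s (fun d _ => hcoord d)
        simpa using this
      obtain ⟨n, hn1, hn2⟩ : ∃ n, ∑ d ∈ s, |x n d| < 1 / 8 ∧ n ∉ A := by
        have h1 := hlim.eventually_lt_const (show (0 : ℝ) < 1 / 8 by norm_num)
        have h2 : ∀ᶠ n in atTop, n ∉ A := by
          filter_upwards [eventually_gt_atTop (A.sup id)] with n hn hmem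
          have : n ≤ A.sup id := Finset.le_sup (f := id) hmem
          omega
        exact (h1.and h2).exists
      obtain ⟨t, hst, ht⟩ : ∃ t : Finset D, s ⊆ t ∧ ‖x n‖ - 1 / 8 < ∑ d ∈ t, |x n d| := by
        have h1 := (hasSum_norm (x n)).eventually_const_lt
          (show ‖x n‖ - 1 / 8 < ‖x n‖ by linarith)
        obtain ⟨t, ht⟩ := (h1.and (eventually_ge_atTop s)).exists
        exact ⟨t, ht.2, ht.1⟩
      refine ⟨insert n A, ?_⟩
      rw [Finset.sum_insert hn2, ← hy]
      have h1 : ∑ d ∈ t, |(x n + y) d| ≤ ‖x n + y‖ :=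
        sum_le_hasSum t (fun d _ => abs_nonneg _) (hasSum_norm (x n + y))
      have h2 : ∑ d ∈ t, |y d| ≤ ‖y‖ := sum_le_hasSum t (fun d _ => abs_nonneg _) (hasSum_norm y)
      have h3 : ∑ d ∈ t, |(x n + y) d| = ∑ d ∈ t \ s, |(x n + y) d| + ∑ d ∈ s, |(x n + y) d| :=
        (Finset.sum_sdiff hst).symm
      have h4 : ∑ d ∈ t, |y d| = ∑ d ∈ t \ s, |y d| + ∑ d ∈ s, |y d| :=
        (Finset.sum_sdiff hst).symm
      have h5 : ∑ d ∈ t, |x n d| = ∑ d ∈ t \ s, |x n d| + ∑ d ∈ s, |x n d| :=
        (Finset.sum_sdiff hst).symm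
      have h6 : ∑ d ∈ s, |y d| - ∑ d ∈ s, |x n d| ≤ ∑ d ∈ s, |(x n + y) d| := by
        rw [← Finset.sum_sub_distrib]
        apply Finset.sum_le_sum
        intro d _
        rw [lp.coeFn_add, Pi.add_apply]
        have := abs_sub_abs_le_abs_sub (y d) (-(x n d))
        rw [abs_neg, sub_neg_eq_add, add_comm (y d)] at this
        exact this
      have h7 : ∑ d ∈ t \ s, |x n d| - ∑ d ∈ t \ s, |y d| ≤ ∑ d ∈ t \ s, |(x n + y) d| := by
        rw [← Finset.sum_sub_distrib]
        apply Finset.sum_le_sum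
        intro d _
        rw [lp.coeFn_add, Pi.add_apply]
        have := abs_sub_abs_le_abs_sub (x n d) (-(y d))
        rw [abs_neg, sub_neg_eq_add] at this
        exact this
      have h8 := hnorm n
      push_cast
      linarith
  obtain ⟨k, hk⟩ := exists_nat_gt ((1 + C) * (8 / 3))
  obtain ⟨A, hA⟩ := hump k
  have h1 := hsum A (fun _ => 1) (fun _ => by simp)
  simp only [Int.cast_one, one_smul] at h1
  linarith

end main

/-- **Main result.** There are a separable real Banach space `E`, a closed subspace `G` and a bounded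
sequence `φ` in the dual of `G` such that for every bounded sequence `f` of continuous functionals
on `E` extending the `φ n`, the sum of `G` and the common kernel of the `f n` is not dense. -/
theorem result :
    ∃ (E : Type) (_ : NormedAddCommGroup E) (_ : NormedSpace ℝ E) (_ : CompleteSpace E)
      (_ : TopologicalSpace.SeparableSpace E) (G : Submodule ℝ E) (φ : ℕ → (G →L[ℝ] ℝ)),
      IsClosed (G : Set E) ∧ (∃ C : ℝ, ∀ n, ‖φ n‖ ≤ C) ∧
      ∀ f : ℕ → (E →L[ℝ] ℝ), (∀ (n : ℕ) (x : G), f n x = φ n x) → (∃ C : ℝ, ∀ n, ‖f n‖ ≤ C) →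
        ¬ Dense {z : E | ∃ g ∈ G, ∃ y : E, (∀ n, f n y = 0) ∧ g + y = z} := by
  obtain ⟨u, hu⟩ := exists_enum
  refine ⟨E, inferInstance, inferInstance, inferInstance, separable_E, G,
    fun n => (LS (u n)).comp G.subtypeL, G_closed, ⟨1, ?_⟩, ?_⟩
  · intro n
    apply ContinuousLinearMap.opNorm_le_bound _ zero_le_one
    intro x
    rw [one_mul, Real.norm_eq_abs]
    exact L_le (fun d => (((u n).1 d : ℤ) : ℝ)) (fun d => by
      have := (u n).2 d
      exact_mod_cast this) (x : E)
  · rintro f hf ⟨C, hC⟩ hdense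
    refine final u hu f (fun n x hx => hf n ⟨x, hx⟩) (max C 1) (by positivity)
      (fun n => (hC n).trans (le_max_left _ _)) hdense

end Pool.Agent.Results.MP_771c73_an.NoBoundedExtension
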